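import Mathlib
import Pool.Agent.H512SP.Main

/-!
# The essential span of plane simple closed curves is monotone under nesting
-/

set_option autoImplicit false

open Set Topology

namespace Pool.Agent.Results.MP_7f4959_gt.EssentialSpan

open Pool.Agent.H512SP.Nest

/-- **Theorem.** Let `J` be a simple closed curve in the Euclidean plane.  The essential span of `J`
is at most its span; the essential span of every simple closed curve inside `J` is at most the
essential span of `J`; and, more generally, for every closed curve `c` inside `J` (simple or not)
and every `r` larger than the essential span of `J` there are two motions on `c` which start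
together and end together, the second making one full turn more than the first, and stay at
distance less than `r` from each other. -/
theorem result (J : Set E) (hJ : IsSCC J) :
    essSpan J ≤ span J ∧
    (∀ C : Set E, IsSCC C → C ⊆ inside J → essSpan C ≤ essSpan J) ∧
    (∀ c : Circle → E, Continuous c → (∀ ζ, c ζ ∈ inside J) → ∀ r : ℝ, essSpan J < r →
      ∃ P Q : ℝ → ℝ, IsSweep P Q ∧
        ∀ t, dist (c (Circle.exp (P t))) (c (Circle.exp (Q t))) < r) := by
  refine ⟨ess_le_span hJ, ?_, fun c hc hin r hr => sweepC hJ hc hin hr⟩
  intro C _ hC
  refine Real.sSup_le ?_ (ess_nonneg J)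
  rintro r ⟨c, hc, hci, hcC, Z, hZ, hcn, hk, hne, hm, hr⟩
  by_contra hcon
  rw [not_le] at hcon
  obtain ⟨P, Q, hPQ, hlt⟩ := sweepC hJ hc (fun ζ => hC (hcC ▸ mem_range_self ζ)) hcon
  obtain ⟨t, -, ht⟩ := hm P Q hPQ
  exact absurd (hr _ ht) (not_le.2 (hlt t))

end Pool.Agent.Results.MP_7f4959_gt.EssentialSpan
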