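import Mathlib
import Pool.Agent.H512SP.Main

/-!
# Q1 for curves with a point whose far pairs are linked
-/

set_option autoImplicit false

open Set Topology

namespace Pool.Agent.Results.MP_7f4959_gt.FarPoint

open Pool.Agent.H512SP.Nest

/-- **Theorem.** Let `J` be a simple closed curve in the Euclidean plane and let `C` be a simple
closed curve inside `J`.  Suppose that for every `r` with `0 < r < span C` there is a point `x` of
`C` such that any two pairs `(x, y)`, `(x, y')` with `y, y'` in `C` at distance at least `r` from
`x` can be joined by a connected set of pairs of points inside `J` at distance at least `r`.  Then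
the span of `C` is at most the span of `J`.  This applies to every `C` with a point `x` such that
for all `r > 0` the points of `C` at distance at least `r` from `x` form a connected set. -/
theorem result (J C : Set E) (hJ : IsSCC J) (hC : IsSCC C) (hin : C ⊆ inside J) :
    ((∀ r : ℝ, 0 < r → r < span C → ∃ x ∈ C, ∀ y ∈ C, ∀ y' ∈ C, r ≤ dist x y → r ≤ dist x y' →
      FarLinked J r (x, y) (x, y')) → span C ≤ span J) ∧
    ((∃ x ∈ C, ∀ r : ℝ, 0 < r → IsPreconnected {y | y ∈ C ∧ r ≤ dist x y}) →
      span C ≤ span J) := by
  have key : (∀ r : ℝ, 0 < r → r < span C → ∃ x ∈ C, ∀ y ∈ C, ∀ y' ∈ C, r ≤ dist x y →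
      r ≤ dist x y' → FarLinked J r (x, y) (x, y')) → span C ≤ span J :=
    fun h => (far_point hJ hC hin h).trans (ess_le_span hJ)
  refine ⟨key, ?_⟩
  rintro ⟨x, hx, h⟩
  apply key
  intro r hr _
  exact ⟨x, hx, fun y hy y' hy' h1 h2 => farLinked_of_preconnected hin hx (h r hr) hy hy' h1 h2⟩

end Pool.Agent.Results.MP_7f4959_gt.FarPoint
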