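import Mathlib
import Pool.Agent.H512SP.Main

/-!
# The symmetric span of anything inside a simple closed plane curve `J` is at most the span of `J`
-/

set_option autoImplicit false

open Set Topology

namespace Pool.Agent.Results.MP_7f4959_gt.SymmetricSpan

open Pool.Agent.H512SP.Nest

/-- **Exchange theorem.** Let `J` be a simple closed curve in the Euclidean plane.  If `Z` is a
connected set of pairs of points inside `J` which contains `(x, y)` and `(y, x)` for some `x, y`, and
`r ≤ |a - b|` for all `(a, b) ∈ Z`, then `r` is at most the span of `J`.  Hence the symmetric span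
of every set of points inside `J` is at most the span of `J`. -/
theorem result (J : Set E) (hJ : IsSCC J) :
    (∀ Z : Set (E × E), IsPreconnected Z → (∀ p ∈ Z, p.1 ∈ inside J ∧ p.2 ∈ inside J) →
      ∀ x y : E, (x, y) ∈ Z → (y, x) ∈ Z → ∀ r : ℝ, (∀ p ∈ Z, r ≤ dist p.1 p.2) → r ≤ span J) ∧
    (∀ X ⊆ inside J, symSpan X ≤ span J) := by
  refine ⟨fun Z hZ hin x y hxy hyx r hr =>
    (exchange hJ hZ hin hxy hyx hr).trans (ess_le_span hJ), ?_⟩
  intro X hX
  refine le_trans (Real.sSup_le ?_ (ess_nonneg J)) (ess_le_span hJ)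
  rintro r ⟨Z, hZ, ⟨⟨p, hp⟩, hc⟩, -, hs, hr⟩
  exact exchange hJ hc (fun q hq => ⟨hX (hZ hq).1, hX (hZ hq).2⟩) hp (hs p hp) hr

end Pool.Agent.Results.MP_7f4959_gt.SymmetricSpan
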